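import Pool.Agent.TK4.F.P00
import Pool.Agent.TK4.F.P05
import Pool.Agent.TK4.F.P08
import Pool.Agent.TK4.F.P09

/-!
# Local case analysis for `k = 4`, part 10 (certificates for the checker)
-/

set_option autoImplicit false

namespace Pool.Agent.TwoDens.T4.F

open Pool.Agent.TwoDens.T4

variable {V : Type*} [DecidableEq V] {G : SimpleGraph V} [DecidableRel G.Adj] {X : Finset V}

def s1086 : St := ⟨255, 8, 53919893346855483063030394980115752067574193203576483056395648761886, 26959946673427741554899223697730934915619694004861795195827553042656, 137438953472, 10889035744005332031874742051306133782544⟩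

def c1086 : Cert :=
  .ad 4 6 (.ad 4 7 (.dg 2 4 (.sb 0 4294688) (.sb 1 133152)) (.sb 2 213846689824)) (.sb 2
    247132686368)

theorem L1086 (h : LH G 4 9 X) : Dead G 4 X s1086 :=
  fast_sound h [s1084, s10, s1085]
    (dcons (L1084 h) (dcons (L10 h) (dcons (L1085 h) dnil)))
    c1086 s1086 (by decide +kernel)

def s1087 : St := ⟨255, 8, 53919893346855483063030394977393493130939034895641256795444799864862, 26959946673427741531515197489547452482890705850573279443516049588448, 137438953472, 10889035744005332031874742051306133782544⟩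

def c1087 : Cert :=
  .ad 4 3 (.ad 4 5 (.ad 4 6 (.fl 4 (.sb 0 211766315040)) (.sb 0 246092498976)) (.sb 0
    247132686368)) (.nw 4 31 (.fl 0 (.nw 4 287 (.fl 0 (.dg 4 4 (.sb 1 9933260928) (.kI 1))))))

theorem L1087 (h : LH G 4 9 X) : Dead G 4 X s1087 :=
  fast_sound h [s1086, s1063]
    (dcons (L1086 h) (dcons (L1063 h) dnil))
    c1087 s1087 (by decide +kernel)

def s1088 : St := ⟨31, 5, 340282367000166625996085689103316680734, 158456325065422163386046611456, 0, 10889035744005332031874742051306133782544⟩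

def c1088 : Cert :=
  .ad 1 4 (.nw 1 31 (.fl 0 (.nw 1 63 (.fl 0 (.dg 1 4 (.sb 0 6614517792) (.nw 1 127 (.fl 0 (.ad
    4 2 (.ad 4 3 (.ad 2 3 (.kF 29) (.dg 2 4 (.sb 1 3278880) (.dg 3 4 (.sb 1 2231328) (.sb 2
    100384)))) (.sb 3 247132654624)) (.sb 3 247132686368))))))))) (.sb 4 4294688)

theorem L1088 (h : LH G 4 9 X) : Dead G 4 X s1088 :=
  fast_sound h [s1063, s1084, s10, s1087, s600]
    (dcons (L1063 h) (dcons (L1084 h) (dcons (L10 h) (dcons (L1087 h) (dcons (L600 h) dnil)))))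
    c1088 s1088 (by decide +kernel)

def s1089 : St := ⟨31, 5, 340282367000166625996085689103316680734, 36893488164598972416, 0, 10889035744005332031874742051306133782544⟩

def c1089 : Cert :=
  .ad 1 3 (.ad 1 4 (.dg 1 4 (.ad 2 3 (.ad 2 4 (.kP 1 2) (.sb 0 3277888)) (.sb 0 4293696)) (.dg
    2 4 (.ad 2 3 (.ad 2 4 (.kP 1 2) (.sb 1 4294688)) (.sb 1 3278880)) (.sb 2 4230146))) (.sb 0
    3278880)) (.sb 0 4294688)

theorem L1089 (h : LH G 4 9 X) : Dead G 4 X s1089 :=
  fast_sound h [s1088, s1084, s991]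
    (dcons (L1088 h) (dcons (L1084 h) (dcons (L991 h) dnil)))
    c1089 s1089 (by decide +kernel)

def s1090 : St := ⟨1, 1, 0, 0, 0, 16⟩

def c1090 : Cert :=
  .nw 0 1 (.nw 0 3 (.nw 0 7 (.nw 0 15 (.dg 1 5 (.dg 2 5 (.dg 3 5 (.dg 4 5 (.ad 1 2 (.ad 1 3
    (.ad 2 3 (.kF 15) (.sb 0 4230208)) (.sb 0 4262944)) (.sb 0 4294688)) (.sb 1 3212416)) (.sb
    1 4260960)) (.sb 1 4293696)) (.sb 1 4294688)))))

theorem L1090 (h : LH G 4 9 X) : Dead G 4 X s1090 :=
  fast_sound h [s1089, s5]
    (dcons (L1089 h) (dcons (L5 h) dnil))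
    c1090 s1090 (by decide +kernel)

end Pool.Agent.TwoDens.T4.F
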